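import Mathlib

/-!
# MP_d408b2_an: no positive non-equilibrium solution of `x_{n+1} = max{A, x_n, x_{n-1}} / x_{n-2}` has a
limit

For `A > 1` a convergent solution satisfies `x_{n+3} x_n = A` eventually, so it is eventually periodic.
For `A ≤ 1` the quantity
`K(x, y, z) = max{A, x, y, z} · max{1, 1/x} · max{1, 1/y} · max{1, 1/z}` is invariant, equals `1` at the
equilibrium and is `> 1` everywhere else.
-/

set_option autoImplicit false

namespace Pool.Agent.Results.MP_d408b2_an.NoLimit

open Filter Topology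

/-- `x` is a positive solution of `x_{n+1} = max{A, x_n, x_{n-1}} / x_{n-2}`, `n = 0, 1, 2, …`; the term
`x_{n-2}` of the problem is `x n` here, so the initial values are `x 0, x 1, x 2`. -/
def IsPositiveSolution (A : ℝ) (x : ℕ → ℝ) : Prop :=
  (∀ n, 0 < x n) ∧ ∀ n, x (n + 3) = max (max A (x (n + 2))) (x (n + 1)) / x n

/-- the invariant -/
noncomputable def K (A x y z : ℝ) : ℝ :=
  max (max A (max y z)) x * max 1 x⁻¹ * (max 1 y⁻¹ * max 1 z⁻¹)

lemma K_step (A x y z : ℝ) (hx : 0 < x) (hy : 0 < y) (hz : 0 < z) :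
    K A y z (max (max A z) y / x) = K A x y z := by
  set m := max (max A z) y with hm
  have hm0 : 0 < m := lt_of_lt_of_le hy (le_max_right _ _)
  have h1 : max (max A (max z (m / x))) y = m * max 1 x⁻¹ := by
    rw [mul_max_of_nonneg _ _ hm0.le, mul_one, ← div_eq_mul_inv, hm, max_comm z, ← max_assoc,
      max_right_comm A, max_right_comm (max A z)]
  have h2 : max 1 (m / x)⁻¹ = max m x / m := by
    rw [← max_div_div_right hm0.le, div_self hm0.ne', inv_div]
  have h3 : max (max A (max y z)) x = max m x := by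
    rw [hm, max_comm y z, ← max_assoc]
  unfold K
  rw [h1, h2, h3]
  field_simp

lemma one_le_K_left (A x y z : ℝ) (hx : 0 < x) :
    1 ≤ max (max A (max y z)) x * max 1 x⁻¹ := by
  calc (1 : ℝ) = x * x⁻¹ := (mul_inv_cancel₀ hx.ne').symm
    _ ≤ max (max A (max y z)) x * max 1 x⁻¹ :=
        mul_le_mul (le_max_right _ _) (le_max_right _ _) (inv_pos.2 hx).le
          (hx.le.trans (le_max_right _ _))

lemma eq_one_of_K (A x y z : ℝ) (hx : 0 < x) (hy : 0 < y) (h : K A x y z ≤ 1) :
    x ≤ 1 ∧ 1 ≤ y := by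
  have h1 := one_le_K_left A x y z hx
  have hy1 : (1 : ℝ) ≤ max 1 y⁻¹ := le_max_left _ _
  have hz1 : (1 : ℝ) ≤ max 1 z⁻¹ := le_max_left _ _
  have hx1 : (1 : ℝ) ≤ max 1 x⁻¹ := le_max_left _ _
  have hxm : x ≤ max (max A (max y z)) x := le_max_right _ _
  unfold K at h
  constructor
  · have : x ≤ max (max A (max y z)) x * max 1 x⁻¹ * (max 1 y⁻¹ * max 1 z⁻¹) := by
      have e1 : x ≤ max (max A (max y z)) x * max 1 x⁻¹ := by nlinarith
      have e2 : (1 : ℝ) ≤ max 1 y⁻¹ * max 1 z⁻¹ := by nlinarith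
      nlinarith
    linarith
  · have e2 : max 1 y⁻¹ ≤ max 1 y⁻¹ * max 1 z⁻¹ := by nlinarith
    have e3 : max 1 y⁻¹ ≤ 1 := by nlinarith
    have e4 : y⁻¹ ≤ 1 := le_trans (le_max_right _ _) e3
    exact (inv_le_one₀ hy).1 e4

/-- Case `A ≤ 1`. -/
lemma case_le (A : ℝ) (hA : A ≤ 1) (x : ℕ → ℝ) (hx : IsPositiveSolution A x)
    (hl : Tendsto x atTop (𝓝 1)) : ∀ n, x n = 1 := by
  obtain ⟨hpos, hrec⟩ := hx
  have hK : ∀ n, K A (x n) (x (n + 1)) (x (n + 2)) = K A (x 0) (x 1) (x 2) := by
    intro n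
    induction n with
    | zero => rfl
    | succ n ih =>
      rw [← ih, ← K_step A _ _ _ (hpos n) (hpos (n + 1)) (hpos (n + 2))]
      show K A (x (n + 1)) (x (n + 2)) (x (n + 3)) = _
      rw [hrec n]
  have h0 : Tendsto (fun n => x n) atTop (𝓝 1) := hl
  have h1 : Tendsto (fun n => x (n + 1)) atTop (𝓝 1) := hl.comp (tendsto_add_atTop_nat 1)
  have h2 : Tendsto (fun n => x (n + 2)) atTop (𝓝 1) := hl.comp (tendsto_add_atTop_nat 2)
  have hlim : Tendsto (fun n => K A (x n) (x (n + 1)) (x (n + 2))) atTop (𝓝 (K A 1 1 1)) := by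
    unfold K
    refine Tendsto.mul (Tendsto.mul ?_ ?_) (Tendsto.mul ?_ ?_)
    · exact (tendsto_const_nhds.max (h1.max h2)).max h0
    · exact tendsto_const_nhds.max (h0.inv₀ one_ne_zero)
    · exact tendsto_const_nhds.max (h1.inv₀ one_ne_zero)
    · exact tendsto_const_nhds.max (h2.inv₀ one_ne_zero)
  have hK1 : K A 1 1 1 = 1 := by
    unfold K; simp [hA]
  have hc : K A (x 0) (x 1) (x 2) = 1 := by
    have := tendsto_nhds_unique hlim (by
      simp only [hK]; exact tendsto_const_nhds)
    rw [← this, hK1]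
  have hle : ∀ n, x n ≤ 1 ∧ 1 ≤ x (n + 1) := fun n =>
    eq_one_of_K A _ _ _ (hpos n) (hpos (n + 1)) ((hK n).trans hc).le
  have hs : ∀ n, x (n + 1) = 1 := fun n => le_antisymm (hle (n + 1)).1 (hle n).2
  intro n
  cases n with
  | succ n => exact hs n
  | zero =>
    have h3 := hrec 0
    rw [hs 2, hs 1, hs 0] at h3
    rw [eq_div_iff (hpos 0).ne', one_mul] at h3
    rw [h3]; simp [hA]

/-- Case `A > 1`. -/
lemma case_gt (A : ℝ) (hA : 1 < A) (x : ℕ → ℝ) (hx : IsPositiveSolution A x) (L : ℝ)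
    (hLA : L < A) (hLL : L * L = A) (hL : 0 < L) (hl : Tendsto x atTop (𝓝 L)) :
    ∀ n, x n = L := by
  obtain ⟨hpos, hrec⟩ := hx
  obtain ⟨N, hN⟩ := eventually_atTop.1 (hl.eventually (gt_mem_nhds hLA))
  have h3 : ∀ n, N ≤ n → x (n + 3) = A / x n := by
    intro n hn
    rw [hrec n, max_eq_left (hN (n + 2) (by omega)).le, max_eq_left (hN (n + 1) (by omega)).le]
  have h6 : ∀ n, N ≤ n → x (n + 6) = x n := by
    intro n hn
    have := h3 (n + 3) (by omega)
    rw [show n + 3 + 3 = n + 6 from rfl, h3 n hn] at this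
    rw [this]
    have := (hpos n).ne'
    have hA0 : A ≠ 0 := by linarith
    field_simp
  have hev : ∀ n, N ≤ n → x n = L := by
    intro n hn
    have hk : ∀ k : ℕ, x (n + 6 * k) = x n := by
      intro k
      induction k with
      | zero => rfl
      | succ k ih => rw [← ih, ← h6 (n + 6 * k) (by omega)]; rfl
    have ht : Tendsto (fun k : ℕ => x (n + 6 * k)) atTop (𝓝 L) := by
      apply hl.comp
      apply tendsto_atTop_mono (f := fun k : ℕ => k) (fun k => by omega) tendsto_id
    simp only [hk] at ht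
    exact tendsto_nhds_unique tendsto_const_nhds ht
  have hdown : ∀ k n, n + k = N → ∀ m, n ≤ m → x m = L := by
    intro k
    induction k with
    | zero => intro n hn m hm; exact hev m (by omega)
    | succ k ih =>
      intro n hn m hm
      rcases Nat.eq_or_lt_of_le hm with rfl | hlt
      · have ih' := ih (n + 1) (by omega)
        have hr := hrec n
        rw [ih' (n + 3) (by omega), ih' (n + 2) (by omega), ih' (n + 1) (by omega),
          max_eq_left hLA.le, max_eq_left hLA.le, eq_div_iff (hpos n).ne', ← hLL] at hr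
        exact mul_left_cancel₀ hL.ne' hr
      · exact ih (n + 1) (by omega) m (by omega)
  intro n
  exact hdown N 0 (by omega) n (Nat.zero_le n)

/-- For every `A > 0`, every positive solution of `x_{n+1} = max{A, x_n, x_{n-1}} / x_{n-2}` which has a
limit in `ℝ` is constant. -/
theorem result : ∀ A : ℝ, 0 < A → ∀ x : ℕ → ℝ, IsPositiveSolution A x →
    (∃ L : ℝ, Tendsto x atTop (𝓝 L)) → ∀ n, x n = x 0 := by
  intro A hA x hx ⟨L, hl⟩
  have hpos := hx.1
  have hrec := hx.2
  have hL0 : 0 ≤ L := ge_of_tendsto' hl fun n => (hpos n).le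
  have h1 : Tendsto (fun n => x (n + 1)) atTop (𝓝 L) := hl.comp (tendsto_add_atTop_nat 1)
  have h2 : Tendsto (fun n => x (n + 2)) atTop (𝓝 L) := hl.comp (tendsto_add_atTop_nat 2)
  have h3 : Tendsto (fun n => x (n + 3)) atTop (𝓝 L) := hl.comp (tendsto_add_atTop_nat 3)
  have hmul : ∀ n, x (n + 3) * x n = max (max A (x (n + 2))) (x (n + 1)) := fun n => by
    rw [hrec n, div_mul_cancel₀ _ (hpos n).ne']
  have hLL : L * L = max A L := by
    have ha := h3.mul hl
    simp only [hmul] at ha
    have hb : Tendsto (fun n => max (max A (x (n + 2))) (x (n + 1))) atTop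
        (𝓝 (max (max A L) L)) := (tendsto_const_nhds.max h2).max h1
    rw [tendsto_nhds_unique ha hb, max_assoc, max_self]
  have hLpos : 0 < L := by
    rcases hL0.eq_or_lt with h | h
    · rw [← h] at hLL
      have : A ≤ max A 0 := le_max_left _ _
      nlinarith
    · exact h
  suffices ∀ n, x n = L by
    intro n; rw [this n, this 0]
  rcases le_or_gt A 1 with hA1 | hA1
  · have hL1 : L = 1 := by
      rcases le_total A L with h | h
      · rw [max_eq_right h] at hLL
        exact mul_left_cancel₀ hLpos.ne' (by linarith)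
      · rw [max_eq_left h] at hLL
        nlinarith
    subst hL1
    exact case_le A hA1 x hx hl
  · have hLA : L < A := by
      by_contra hcon
      push Not at hcon
      rw [max_eq_right hcon] at hLL
      have : L = 1 := mul_left_cancel₀ hLpos.ne' (by linarith)
      linarith
    rw [max_eq_left hLA.le] at hLL
    exact case_gt A hA1 x hx L hLA hLL hLpos hl

end Pool.Agent.Results.MP_d408b2_an.NoLimit
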